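import Pool.Agent.W_1bfdb5_h19.Neg
import Pool.Agent.W_1bfdb5fd_h19.RbA

/-!
# Closed walks in the blow-up of C_m with two large adjacent classes: patterns

`HG m s` (`W_1bfdb5_h19/NegA2.lean`): classes 0 and 1 of size `s + 1`, the others of size 1.
`pJ m j s J`: the pattern `0, 1, 0, 1, ..., 0, 1` (`2 s + 2` terms, at the positions `0, ..., 2 s + 1`)
and then, from the class 1 at position `2 s + 1` to the class 0 at position `m + 2 j` (which is
position 0), a walk of `L = m - 1 + 2 (j - s)` steps; step number `t < L` is `-1` if `t ∈ J` and `1`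
otherwise, `J ⊆ range L`, `#J = j - s`: the sum of the steps is `m - 1`.
* `pJ_mem`: it is a pattern.
* `pJ_inj`: different sets give different patterns (`1 ≠ -1` in `ZMod m`).
-/

namespace Pool.Agent.CycSH

open Finset Pool.Agent.CycGT Pool.Agent.CycFD
open scoped Classical

/-- The pattern of a set of back steps. -/
noncomputable def pJ (m j s : ℕ) (J : Finset ℕ) (i : ZMod (m + 2 * j)) : ZMod m :=
  if i.val < 2 * s + 2 then ((i.val % 2 : ℕ) : ZMod m) else
    ((1 + ∑ t ∈ range (i.val - (2 * s + 1)), (if t ∈ J then (-1 : ℤ) else 1) : ℤ) : ZMod m)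

private lemma FaA_val_succ (m j : ℕ) [NeZero (m + 2 * j)] (hm : 5 ≤ m) (i : ZMod (m + 2 * j)) :
    (i.val + 1 < m + 2 * j ∧ (i + 1).val = i.val + 1) ∨
      (i.val + 1 = m + 2 * j ∧ (i + 1).val = 0) := by
  have h1 : (1 : ZMod (m + 2 * j)).val = 1 := by
    rw [ZMod.val_one'' (by omega)]
  have h2 := ZMod.val_lt i
  have h3 := ZMod.val_add i 1
  rw [h1] at h3
  rcases Nat.lt_or_ge (i.val + 1) (m + 2 * j) with h4 | h4
  · exact Or.inl ⟨h4, by rw [h3, Nat.mod_eq_of_lt h4]⟩
  · have h5 : i.val + 1 = m + 2 * j := by omega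
    exact Or.inr ⟨h5, by rw [h3, h5, Nat.mod_self]⟩

/-- the walk after `n` steps -/
private noncomputable def FaA_A (m : ℕ) (J : Finset ℕ) (n : ℕ) : ZMod m :=
  ((1 + ∑ t ∈ range n, (if t ∈ J then (-1 : ℤ) else 1) : ℤ) : ZMod m)

private lemma FaA_A_zero (m : ℕ) (J : Finset ℕ) : FaA_A m J 0 = 1 := by
  simp [FaA_A]

private lemma FaA_A_succ (m : ℕ) (J : Finset ℕ) (n : ℕ) :
    FaA_A m J (n + 1) = FaA_A m J n + (if n ∈ J then (-1 : ZMod m) else 1) := by
  unfold FaA_A
  rw [sum_range_succ]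
  split_ifs <;> push_cast <;> ring

private lemma FaA_A_end {m j s : ℕ} (hm : 5 ≤ m) {J : Finset ℕ}
    (hJ : J ∈ powersetCard (j - s) (range (m - 1 + 2 * (j - s)))) :
    FaA_A m J (m - 1 + 2 * (j - s)) = 0 := by
  rw [mem_powersetCard] at hJ
  obtain ⟨h1, h2⟩ := hJ
  have h3 : ∑ t ∈ range (m - 1 + 2 * (j - s)), (if t ∈ J then (-1 : ℤ) else 1) = (m : ℤ) - 1 := by
    have h4 : ∀ t : ℕ, (if t ∈ J then (-1 : ℤ) else 1) = 1 - 2 * (if t ∈ J then (1 : ℤ) else 0) := by
      intro t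
      split_ifs <;> norm_num
    rw [sum_congr rfl fun t _ => h4 t, sum_sub_distrib, ← mul_sum, sum_ite_mem,
      inter_eq_right.2 h1]
    simp only [sum_const, card_range, nsmul_eq_mul, mul_one]
    rw [h2]
    push_cast
    rw [Nat.cast_sub (by omega : 1 ≤ m)]
    push_cast
    ring
  unfold FaA_A
  rw [h3]
  have h5 : (1 + ((m : ℤ) - 1)) = m := by ring
  rw [h5]
  simp

private lemma FaA_lt (m j s : ℕ) (J : Finset ℕ) (i : ZMod (m + 2 * j)) (h : i.val < 2 * s + 2) :
    pJ m j s J i = ((i.val % 2 : ℕ) : ZMod m) := by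
  unfold pJ
  exact if_pos h

private lemma FaA_ge (m j s : ℕ) (J : Finset ℕ) (i : ZMod (m + 2 * j)) (h : 2 * s + 1 ≤ i.val) :
    pJ m j s J i = FaA_A m J (i.val - (2 * s + 1)) := by
  by_cases h1 : i.val < 2 * s + 2
  · rw [FaA_lt m j s J i h1]
    have h2 : i.val % 2 = 1 := by omega
    have h3 : i.val - (2 * s + 1) = 0 := by omega
    rw [h2, h3, FaA_A_zero, Nat.cast_one]
  · unfold pJ
    exact if_neg h1

private lemma FaA_one_ne {m : ℕ} (hm : 5 ≤ m) : (-1 : ZMod m) ≠ 1 := by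
  intro h
  have h1 : ((2 : ℕ) : ZMod m) = 0 := by
    push_cast
    linear_combination -h
  rw [ZMod.natCast_eq_zero_iff] at h1
  have := Nat.le_of_dvd (by norm_num) h1
  omega

theorem pJ_mem {m j s : ℕ} [NeZero m] (hm : 5 ≤ m) (hs : s ≤ j) {J : Finset ℕ}
    (hJ : J ∈ powersetCard (j - s) (range (m - 1 + 2 * (j - s)))) :
    pJ m j s J ∈ pats (m + 2 * j) m := by
  simp only [pats, mem_filter, mem_univ, true_and]
  intro i
  have key : ∀ n : ℕ, FaA_A m J (n + 1) = FaA_A m J n + 1 ∨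
      FaA_A m J n = FaA_A m J (n + 1) + 1 := by
    intro n
    rw [FaA_A_succ]
    split_ifs
    · right
      ring
    · left
      rfl
  rcases FaA_val_succ m j hm i with ⟨h1, h2⟩ | ⟨h1, h2⟩
  · by_cases h3 : i.val + 1 < 2 * s + 2
    · rw [FaA_lt m j s J i (by omega), FaA_lt m j s J (i + 1) (by omega), h2]
      rcases Nat.mod_two_eq_zero_or_one i.val with h4 | h4
      · left
        have h5 : (i.val + 1) % 2 = 1 := by omega
        rw [h4, h5]
        simp
      · right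
        have h5 : (i.val + 1) % 2 = 0 := by omega
        rw [h4, h5]
        simp
    · rw [FaA_ge m j s J i (by omega), FaA_ge m j s J (i + 1) (by omega), h2]
      have h4 : i.val + 1 - (2 * s + 1) = i.val - (2 * s + 1) + 1 := by omega
      rw [h4]
      exact key _
  · rw [FaA_ge m j s J i (by omega), FaA_lt m j s J (i + 1) (by omega), h2]
    have h4 : m - 1 + 2 * (j - s) = i.val - (2 * s + 1) + 1 := by omega
    have h5 := FaA_A_end hm hJ
    rw [h4] at h5
    have h6 := key (i.val - (2 * s + 1))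
    rw [h5] at h6
    simpa using h6

theorem pJ_inj {m j s : ℕ} [NeZero m] (hm : 5 ≤ m) (hs : s ≤ j) {J J' : Finset ℕ}
    (hJ : J ∈ powersetCard (j - s) (range (m - 1 + 2 * (j - s))))
    (hJ' : J' ∈ powersetCard (j - s) (range (m - 1 + 2 * (j - s))))
    (h : pJ m j s J = pJ m j s J') : J = J' := by
  have h1 : ∀ n < m - 1 + 2 * (j - s), FaA_A m J n = FaA_A m J' n := by
    intro n hn
    have hv : ((n + (2 * s + 1) : ℕ) : ZMod (m + 2 * j)).val = n + (2 * s + 1) :=
      ZMod.val_cast_of_lt (by omega)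
    have h2 := congrFun h ((n + (2 * s + 1) : ℕ) : ZMod (m + 2 * j))
    rw [FaA_ge m j s J _ (by omega), FaA_ge m j s J' _ (by omega), hv] at h2
    have h3 : n + (2 * s + 1) - (2 * s + 1) = n := by omega
    rwa [h3] at h2
  have h2 : ∀ n ≤ m - 1 + 2 * (j - s), FaA_A m J n = FaA_A m J' n := by
    intro n hn
    rcases Nat.lt_or_eq_of_le hn with h3 | h3
    · exact h1 n h3
    · rw [h3, FaA_A_end hm hJ, FaA_A_end hm hJ']
  have hne := FaA_one_ne hm
  have h3 : ∀ n < m - 1 + 2 * (j - s), (n ∈ J ↔ n ∈ J') := by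
    intro n hn
    have h4 := h2 n hn.le
    have h5 := h2 (n + 1) hn
    rw [FaA_A_succ, FaA_A_succ, h4] at h5
    have h6 := add_left_cancel h5
    by_cases h7 : n ∈ J <;> by_cases h8 : n ∈ J'
    · exact ⟨fun _ => h8, fun _ => h7⟩
    · rw [if_pos h7, if_neg h8] at h6
      exact (hne h6).elim
    · rw [if_neg h7, if_pos h8] at h6
      exact (hne h6.symm).elim
    · exact ⟨fun h9 => (h7 h9).elim, fun h9 => (h8 h9).elim⟩
  rw [mem_powersetCard] at hJ hJ'
  ext n
  constructor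
  · intro hn
    exact (h3 n (mem_range.1 (hJ.1 hn))).1 hn
  · intro hn
    exact (h3 n (mem_range.1 (hJ'.1 hn))).2 hn

end Pool.Agent.CycSH
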