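import Pool.Agent.W_1bfdb5sh_h19.FaA

/-!
# Closed walks in the blow-up of C_m with two large adjacent classes: lower bound

`cl_card`: sizes of the classes of `HG m s`.  `HG_lower`: `cls_clos` (`W_1bfdb5_h19/NegA.lean`),
restricted to the patterns `pJ m j s J`; the product of the class sizes over the positions
`0, ..., 2 s + 1` is `(s + 1) ^ (2 s + 2)`, the other factors are at least 1.
-/

namespace Pool.Agent.CycSH

open Finset Pool.Agent.CycGT Pool.Agent.CycFD
open scoped Classical

theorem cl_card {m s : ℕ} [NeZero m] (hm : 5 ≤ m) (t : ZMod m) :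
    1 ≤ #((univ : Finset (Fin (m + 2 * s))).filter (fun x => cl m s x = t)) ∧
    ((t = 0 ∨ t = 1) →
      s + 1 ≤ #((univ : Finset (Fin (m + 2 * s))).filter (fun x => cl m s x = t))) := by
  have ht := ZMod.val_lt t
  constructor
  · rw [Nat.one_le_iff_ne_zero, Finset.card_ne_zero]
    by_cases h2 : t.val < 2
    · refine ⟨⟨t.val, by omega⟩, ?_⟩
      rw [mem_filter]
      refine ⟨mem_univ _, ?_⟩
      unfold cl
      rw [if_pos (show t.val < 2 * s + 2 by omega)]
      have h3 : t.val % 2 = t.val := Nat.mod_eq_of_lt h2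
      change ((t.val % 2 : ℕ) : ZMod m) = t
      rw [h3, ZMod.natCast_zmod_val]
    · refine ⟨⟨t.val + 2 * s, by omega⟩, ?_⟩
      rw [mem_filter]
      refine ⟨mem_univ _, ?_⟩
      unfold cl
      rw [if_neg (show ¬ t.val + 2 * s < 2 * s + 2 by omega)]
      change ((t.val + 2 * s - 2 * s : ℕ) : ZMod m) = t
      rw [Nat.add_sub_cancel, ZMod.natCast_zmod_val]
  · intro h01
    obtain ⟨e, he, het⟩ : ∃ e : ℕ, e < 2 ∧ t = ((e : ℕ) : ZMod m) := by
      rcases h01 with h | h
      · exact ⟨0, by omega, by rw [h]; simp⟩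
      · exact ⟨1, by omega, by rw [h]; simp⟩
    have hj : s + 1 = #(univ : Finset (Fin (s + 1))) := by
      rw [card_univ, Fintype.card_fin]
    rw [hj]
    refine card_le_card_of_injOn
      (fun a : Fin (s + 1) => (⟨2 * a.val + e, by have := a.2; omega⟩ : Fin (m + 2 * s)))
      ?_ ?_
    · intro a _
      have h2 := a.2
      rw [mem_coe, mem_filter]
      refine ⟨mem_univ _, ?_⟩
      unfold cl
      have h3 : (2 * a.val + e) < 2 * s + 2 := by omega
      have h4 : (2 * a.val + e) % 2 = e := by omega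
      simp only [h3, if_true, h4]
      exact het.symm
    · intro a _ b _ hab
      have h3 := congrArg (fun x : Fin (m + 2 * s) => x.val) hab
      simp only at h3
      apply Fin.ext
      omega

private theorem FaB_prod {m j s : ℕ} [NeZero m] (hm : 5 ≤ m) (hs : s ≤ j) (J : Finset ℕ) :
    (s + 1) ^ (2 * s + 2) ≤ ∏ i : ZMod (m + 2 * j),
      #((univ : Finset (Fin (m + 2 * s))).filter (fun x => cl m s x = pJ m j s J i)) := by
  set S : Finset (ZMod (m + 2 * j)) := univ.filter (fun i => i.val < 2 * s + 2) with hS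
  have hc : 2 * s + 2 ≤ #S := by
    have hj : 2 * s + 2 = #(range (2 * s + 2)) := by rw [card_range]
    rw [hj]
    refine card_le_card_of_injOn (fun n : ℕ => (n : ZMod (m + 2 * j))) ?_ ?_
    · intro n hn
      rw [mem_coe, mem_range] at hn
      rw [mem_coe, hS, mem_filter]
      refine ⟨mem_univ _, ?_⟩
      rw [ZMod.val_cast_of_lt (by omega)]
      exact hn
    · intro a ha b hb hab
      rw [mem_coe, mem_range] at ha hb
      have h1 : ((a : ℕ) : ZMod (m + 2 * j)) = ((b : ℕ) : ZMod (m + 2 * j)) := hab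
      rw [ZMod.natCast_eq_natCast_iff] at h1
      exact Nat.ModEq.eq_of_lt_of_lt h1 (by omega) (by omega)
  calc (s + 1) ^ (2 * s + 2) ≤ (s + 1) ^ (#S) := Nat.pow_le_pow_right (by omega) hc
    _ = ∏ _i ∈ S, (s + 1) := by rw [prod_const]
    _ ≤ ∏ i ∈ S, #((univ : Finset (Fin (m + 2 * s))).filter (fun x => cl m s x = pJ m j s J i)) := by
        refine prod_le_prod' fun i hi => ?_
        rw [hS, mem_filter] at hi
        apply (cl_card hm _).2
        unfold pJ
        rw [if_pos hi.2]
        rcases Nat.mod_two_eq_zero_or_one i.val with h | h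
        · left
          rw [h]
          simp
        · right
          rw [h]
          simp
    _ ≤ _ := by
        refine prod_le_prod_of_subset_of_one_le' (subset_univ _) ?_
        intro i _ _
        exact (cl_card hm _).1

theorem HG_lower {m j s : ℕ} [NeZero m] (hm : 5 ≤ m) (hs : s ≤ j) :
    (s + 1) ^ (2 * s + 2) * (m - 1 + 2 * (j - s)).choose (j - s) ≤
      #(clos (HG m s) (m + 2 * j)) := by
  have h1 := cls_clos (k := m + 2 * j) (m := m) (by omega) (cl m s)
  unfold HG
  rw [h1]
  have h2 : ((powersetCard (j - s) (range (m - 1 + 2 * (j - s)))).image (pJ m j s)) ⊆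
      pats (m + 2 * j) m := by
    intro p hp
    rw [mem_image] at hp
    obtain ⟨J, hJ, rfl⟩ := hp
    exact pJ_mem hm hs hJ
  refine le_trans ?_ (sum_le_sum_of_subset h2)
  rw [sum_image (fun a ha b hb h => pJ_inj hm hs ha hb h)]
  have h3 : (s + 1) ^ (2 * s + 2) * (m - 1 + 2 * (j - s)).choose (j - s)
      = ∑ _J ∈ powersetCard (j - s) (range (m - 1 + 2 * (j - s))), (s + 1) ^ (2 * s + 2) := by
    rw [sum_const, card_powersetCard, card_range, smul_eq_mul, mul_comm]
  rw [h3]
  exact sum_le_sum fun J _ => FaB_prod hm hs J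

end Pool.Agent.CycSH
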