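import Mathlib

/-!
# Failure side: elementary estimates

`Hf m j u = 2 u log u - u log m - (j - u) log (j - u) + j log j - 3 u` is (up to `O(log m)`) the
logarithm of (number of closed walks in `HG m u`) / (number in the balanced blow-up).
* `fact_up`: induction, `(1 + 1/n)^n ≤ e`; or compare the sum of logarithms with an integral.
* `Hf_tau`: put `u = τ j` and use `log (1 - τ) = -3 τ`.
* `Hf_sub`: the derivative of `Hf m j` at `u` is `log (u^2 (j - u) / m) ≤ log 28`.
-/

namespace Pool.Agent.CycSH

open Finset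

theorem fact_up (n : ℕ) (hn : 1 ≤ n) :
    (n.factorial : ℝ) ≤ Real.exp 1 * n * ((n : ℝ) ^ n * Real.exp (-n)) := by
  induction n, hn using Nat.le_induction with
  | base =>
    have h : Real.exp 1 * Real.exp (-1) = 1 := by
      rw [← Real.exp_add]
      norm_num
    simp only [Nat.factorial_one, Nat.cast_one, mul_one, one_pow, one_mul]
    rw [h]
  | succ n hn ih =>
    have hn0 : (0 : ℝ) < n := by exact_mod_cast hn
    have hn1 : (0 : ℝ) < (n : ℝ) + 1 := by linarith
    -- (n / (n+1))^(n+1) is at most exp (-1)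
    have h1 : (n : ℝ) / (n + 1) ≤ Real.exp (-(1 / ((n : ℝ) + 1))) := by
      have h2 := Real.add_one_le_exp (-(1 / ((n : ℝ) + 1)))
      have h3 : (n : ℝ) / (n + 1) = -(1 / ((n : ℝ) + 1)) + 1 := by
        field_simp
        ring
      rw [h3]
      exact h2
    have h4 : ((n : ℝ) / (n + 1)) ^ (n + 1) ≤ Real.exp (-1) := by
      have h5 := pow_le_pow_left₀ (by positivity) h1 (n + 1)
      refine h5.trans (le_of_eq ?_)
      rw [← Real.exp_nat_mul]
      congr 1
      push_cast
      field_simp
    have h6 : (n : ℝ) ^ (n + 1) ≤ Real.exp (-1) * ((n : ℝ) + 1) ^ (n + 1) := by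
      rw [div_pow, div_le_iff₀ (by positivity)] at h4
      exact h4
    rw [Nat.factorial_succ]
    push_cast
    have h7 : Real.exp (-((n : ℝ) + 1)) = Real.exp (-(n : ℝ)) * Real.exp (-1) := by
      rw [← Real.exp_add]
      congr 1
      ring
    rw [h7]
    calc ((n : ℝ) + 1) * (n.factorial : ℝ)
        ≤ ((n : ℝ) + 1) * (Real.exp 1 * n * ((n : ℝ) ^ n * Real.exp (-n))) :=
          mul_le_mul_of_nonneg_left ih hn1.le
      _ = (((n : ℝ) + 1) * Real.exp 1 * Real.exp (-n)) * (n : ℝ) ^ (n + 1) := by ring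
      _ ≤ (((n : ℝ) + 1) * Real.exp 1 * Real.exp (-n)) * (Real.exp (-1) * ((n : ℝ) + 1) ^ (n + 1)) :=
          mul_le_mul_of_nonneg_left h6 (by positivity)
      _ = Real.exp 1 * ((n : ℝ) + 1) * (((n : ℝ) + 1) ^ (n + 1) * (Real.exp (-(n : ℝ)) * Real.exp (-1))) := by
          ring

/-- The exponent on the failure side. -/
noncomputable def Hf (m j u : ℝ) : ℝ :=
  2 * u * Real.log u - u * Real.log m - (j - u) * Real.log (j - u) + j * Real.log j - 3 * u

theorem Hf_tau {τ m j : ℝ} (h0 : 0 < τ) (h1 : τ < 1) (hτ : 1 - τ = Real.exp (-3 * τ))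
    (hm : 0 < m) (hj : 0 < j) :
    Hf m j (τ * j) = τ * j * Real.log (j ^ 3 * (τ ^ 2 * (1 - τ)) / m) := by
  have h2 : 0 < 1 - τ := by linarith
  have hl : Real.log (1 - τ) = -3 * τ := by
    rw [hτ, Real.log_exp]
  have e1 : Real.log (j ^ 3 * (τ ^ 2 * (1 - τ)) / m) =
      3 * Real.log j + (2 * Real.log τ + -3 * τ) - Real.log m := by
    rw [Real.log_div (by positivity) (by positivity), Real.log_mul (by positivity) (by positivity),
      Real.log_mul (by positivity) (by positivity), Real.log_pow, Real.log_pow, hl]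
    push_cast
    ring
  have e2 : Real.log (τ * j) = Real.log τ + Real.log j := Real.log_mul h0.ne' hj.ne'
  have e3 : Real.log (j - τ * j) = -3 * τ + Real.log j := by
    have h3 : j - τ * j = (1 - τ) * j := by ring
    rw [h3, Real.log_mul h2.ne' hj.ne', hl]
  unfold Hf
  rw [e1, e2, e3]
  ring

theorem Hf_sub {m j u v : ℝ} (hm : 0 < m) (hu : 0 < u) (huv : u ≤ v) (hv : v < j)
    (hjm : j ^ 3 ≤ 28 * m) : Hf m j v - Hf m j u ≤ (v - u) * Real.log 28 := by
  have hd : ∀ x ∈ Set.Ioo (0 : ℝ) j, HasDerivAt (fun x => Hf m j x)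
      (2 * Real.log x + Real.log (j - x) - Real.log m) x := by
    intro x hx
    have hx0 : x ≠ 0 := hx.1.ne'
    have hx1 : j - x ≠ 0 := (sub_pos.2 hx.2).ne'
    have d1 : HasDerivAt (fun x : ℝ => x * Real.log x) (Real.log x + 1) x := Real.hasDerivAt_mul_log hx0
    have d2 : HasDerivAt (fun x : ℝ => (j - x) * Real.log (j - x)) ((Real.log (j - x) + 1) * (-1)) x := by
      have d3 : HasDerivAt (fun x : ℝ => j - x) (-1) x := by
        simpa using (hasDerivAt_id x).const_sub j
      exact (Real.hasDerivAt_mul_log hx1).comp x d3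
    have d4 : HasDerivAt (fun x : ℝ => x * Real.log m) (Real.log m) x := by
      simpa using (hasDerivAt_id x).mul_const (Real.log m)
    have d5 : HasDerivAt (fun x : ℝ => 3 * x) 3 x := by
      simpa using (hasDerivAt_id x).const_mul (3 : ℝ)
    have d6 := ((((d1.const_mul 2).sub d4).sub d2).add_const (j * Real.log j)).sub d5
    have e1 : (fun x => Hf m j x) = (fun x => (((fun y => 2 * (y * Real.log y)) - fun x => x * Real.log m) -
        fun x => (j - x) * Real.log (j - x)) x + j * Real.log j) - fun x => 3 * x := by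
      funext y
      simp only [Hf, Pi.sub_apply]
      ring
    have e2 : 2 * Real.log x + Real.log (j - x) - Real.log m =
        2 * (Real.log x + 1) - Real.log m - (Real.log (j - x) + 1) * -1 - 3 := by ring
    rw [e1, e2]
    exact d6
  have hj : 0 < j := by linarith
  have h := Convex.image_sub_le_mul_sub_of_deriv_le (convex_Ioo (0 : ℝ) j)
    (f := fun x => Hf m j x) (fun x hx => (hd x hx).continuousAt.continuousWithinAt)
    (by
      rw [interior_Ioo]
      exact fun x hx => (hd x hx).differentiableAt.differentiableWithinAt)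
    (C := Real.log 28)
    (by
      rw [interior_Ioo]
      intro x hx
      rw [(hd x hx).deriv]
      have hx1 : 0 < j - x := sub_pos.2 hx.2
      have h3 : 2 * Real.log x + Real.log (j - x) - Real.log m = Real.log (x ^ 2 * (j - x) / m) := by
        rw [Real.log_div (by have := hx.1; positivity) (by positivity),
          Real.log_mul (by have := hx.1; positivity) (by positivity), Real.log_pow]
        push_cast
        ring
      rw [h3]
      refine Real.log_le_log (by have := hx.1; positivity) ?_
      rw [div_le_iff₀ hm]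
      have h4 : x ^ 2 ≤ j ^ 2 := pow_le_pow_left₀ hx.1.le hx.2.le 2
      have h5 : j - x ≤ j := by linarith [hx.1]
      have h6 : x ^ 2 * (j - x) ≤ j ^ 2 * j := mul_le_mul h4 h5 hx1.le (by positivity)
      nlinarith)
    u ⟨hu, by linarith⟩ v ⟨by linarith, hv⟩ huv
  rw [mul_comm] at h
  exact h

end Pool.Agent.CycSH
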