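import Pool.Agent.W_1bfdb5sh_h19.FaC

/-!
# Failure side: the two sides of the inequality

* `lhs_up`: `binom (m + 2 j) j ≤ (m + 2 j)^j / j!`, `j! ≥ j^j exp (-j)`
  (`Real.pow_div_factorial_le_exp`), `m + 2 j = m (1 + 2 j / m) ≤ m exp (2 j / m)` and
  `(m + 2 s) / m ≤ exp (2 s / m)`.
* `rhs_low`: `binom (m - 1 + 2 d) d ≥ m^d / d!` (`Nat.pow_le_choose` or `Nat.pow_sub_le_descFactorial`:
  every factor of the descending factorial is at least `m - 1 + 2 d - (d - 1) ≥ m`), and `fact_up`.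
-/

namespace Pool.Agent.CycSH

open Finset

theorem lhs_up {m j s : ℕ} (hm : 1 ≤ m) (hj : 1 ≤ j) :
    2 * (m : ℝ) * ((m + 2 * j).choose j : ℝ) * (((m : ℝ) + 2 * s) / m) ^ (m + 2 * j) ≤
    Real.exp (Real.log (2 * m) + j * Real.log m + 2 * (j : ℝ) ^ 2 / m + j - j * Real.log j + 2 * s +
      4 * s * j / m) := by
  have hm0 : (0 : ℝ) < m := by exact_mod_cast hm
  have hj0 : (0 : ℝ) < j := by exact_mod_cast hj
  have h1 : ((m + 2 * j).choose j : ℝ) ≤ ((m + 2 * j : ℕ) : ℝ) ^ j / (j.factorial : ℝ) :=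
    Nat.choose_le_pow_div _ _
  have h2 : ((m + 2 * j : ℕ) : ℝ) ^ j ≤ Real.exp (j * Real.log m + 2 * (j : ℝ) ^ 2 / m) := by
    have h3 : ((m + 2 * j : ℕ) : ℝ) ≤ m * Real.exp (2 * j / m) := by
      have h4 := Real.add_one_le_exp (2 * (j : ℝ) / m)
      have h5 : (m : ℝ) * (2 * (j : ℝ) / m + 1) = m + 2 * j := by
        field_simp
        ring
      push_cast
      rw [← h5]
      exact mul_le_mul_of_nonneg_left h4 hm0.le
    calc ((m + 2 * j : ℕ) : ℝ) ^ j ≤ (m * Real.exp (2 * j / m)) ^ j :=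
          pow_le_pow_left₀ (Nat.cast_nonneg _) h3 j
      _ = Real.exp (j * Real.log m + 2 * (j : ℝ) ^ 2 / m) := by
          rw [mul_pow, Real.exp_add, ← Real.exp_nat_mul]
          congr 1
          · rw [Real.exp_nat_mul, Real.exp_log hm0]
          · congr 1
            ring
  have h6 : (1 : ℝ) / (j.factorial : ℝ) ≤ Real.exp (j - j * Real.log j) := by
    have h7 := Real.pow_div_factorial_le_exp (j : ℝ) hj0.le j
    have h8 : Real.exp (j * Real.log j) = (j : ℝ) ^ j := by
      rw [Real.exp_nat_mul, Real.exp_log hj0]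
    rw [Real.exp_sub, h8]
    rw [div_le_div_iff₀ (by positivity) (by positivity)]
    rw [div_le_iff₀ (by positivity)] at h7
    linarith
  have h9 : (((m : ℝ) + 2 * s) / m) ^ (m + 2 * j) ≤ Real.exp (2 * s + 4 * s * j / m) := by
    have h10 : ((m : ℝ) + 2 * s) / m ≤ Real.exp (2 * s / m) := by
      have h4 := Real.add_one_le_exp (2 * (s : ℝ) / m)
      have h5 : ((m : ℝ) + 2 * s) / m = 2 * (s : ℝ) / m + 1 := by
        field_simp
        ring
      rw [h5]
      exact h4
    calc (((m : ℝ) + 2 * s) / m) ^ (m + 2 * j) ≤ (Real.exp (2 * s / m)) ^ (m + 2 * j) :=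
          pow_le_pow_left₀ (by positivity) h10 _
      _ = Real.exp (2 * s + 4 * s * j / m) := by
          rw [← Real.exp_nat_mul]
          congr 1
          push_cast
          field_simp
          ring
  have h11 : Real.exp (Real.log (2 * m) + j * Real.log m + 2 * (j : ℝ) ^ 2 / m + j -
      j * Real.log j + 2 * s + 4 * s * j / m) =
      2 * (m : ℝ) * (Real.exp (j * Real.log m + 2 * (j : ℝ) ^ 2 / m) *
        Real.exp (j - j * Real.log j)) * Real.exp (2 * s + 4 * s * j / m) := by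
    rw [← Real.exp_log (show (0 : ℝ) < 2 * m by positivity), ← Real.exp_add, ← Real.exp_add,
      ← Real.exp_add, Real.log_exp]
    congr 1
    ring
  rw [h11]
  have h12 : ((m + 2 * j).choose j : ℝ) ≤ Real.exp (j * Real.log m + 2 * (j : ℝ) ^ 2 / m) *
        Real.exp (j - j * Real.log j) := by
    refine h1.trans ?_
    rw [div_eq_mul_one_div]
    exact mul_le_mul h2 h6 (by positivity) (Real.exp_pos _).le
  refine mul_le_mul ?_ h9 (by positivity) (by positivity)
  exact mul_le_mul_of_nonneg_left h12 (by positivity)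

theorem rhs_low {m d s : ℕ} (hm : 1 ≤ m) (hd : 1 ≤ d) (hs : 1 ≤ s) :
    Real.exp (2 * s * Real.log s + d * Real.log m + d - d * Real.log d - 1 - Real.log d) ≤
    ((s : ℝ) + 1) ^ (2 * s + 2) * ((m - 1 + 2 * d).choose d : ℝ) := by
  have hm0 : (0 : ℝ) < m := by exact_mod_cast hm
  have hd0 : (0 : ℝ) < d := by exact_mod_cast hd
  have hs0 : (0 : ℝ) < s := by exact_mod_cast hs
  have e1 : Real.exp (2 * s * Real.log s) = (s : ℝ) ^ (2 * s) := by
    have : (2 * (s : ℝ) * Real.log s) = ((2 * s : ℕ) : ℝ) * Real.log s := by push_cast; ring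
    rw [this, Real.exp_nat_mul, Real.exp_log hs0]
  have e2 : Real.exp (d * Real.log m) = (m : ℝ) ^ d := by
    rw [Real.exp_nat_mul, Real.exp_log hm0]
  have e3 : Real.exp (d * Real.log d) = (d : ℝ) ^ d := by
    rw [Real.exp_nat_mul, Real.exp_log hd0]
  have h1 : Real.exp (2 * s * Real.log s + d * Real.log m + d - d * Real.log d - 1 - Real.log d) =
      (s : ℝ) ^ (2 * s) * ((m : ℝ) ^ d / (Real.exp 1 * d * ((d : ℝ) ^ d * Real.exp (-d)))) := by
    have : 2 * (s : ℝ) * Real.log s + d * Real.log m + d - d * Real.log d - 1 - Real.log d =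
      2 * s * Real.log s + (d * Real.log m - ((1 + Real.log d) + (d * Real.log d + -d))) := by ring
    rw [this, Real.exp_add, Real.exp_sub, Real.exp_add (1 + Real.log d), Real.exp_add 1,
      Real.exp_add (d * Real.log d), e1, e2, e3, Real.exp_log hd0]
  rw [h1]
  have h2 : (s : ℝ) ^ (2 * s) ≤ ((s : ℝ) + 1) ^ (2 * s + 2) := by
    calc (s : ℝ) ^ (2 * s) ≤ ((s : ℝ) + 1) ^ (2 * s) :=
          pow_le_pow_left₀ hs0.le (by linarith) _
      _ ≤ ((s : ℝ) + 1) ^ (2 * s + 2) := pow_le_pow_right₀ (by linarith) (by omega)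
  have h3 : (m : ℝ) ^ d / (Real.exp 1 * d * ((d : ℝ) ^ d * Real.exp (-d))) ≤
      ((m - 1 + 2 * d).choose d : ℝ) := by
    have h4 := fact_up d hd
    have h5 : (m : ℝ) ^ d / (Real.exp 1 * d * ((d : ℝ) ^ d * Real.exp (-d))) ≤
        (m : ℝ) ^ d / (d.factorial : ℝ) :=
      div_le_div_of_nonneg_left (by positivity) (by positivity) h4
    refine h5.trans ?_
    rw [div_le_iff₀ (by positivity)]
    have h6 : m ^ d ≤ (m - 1 + 2 * d).choose d * d.factorial := by
      have h7 := Nat.pow_sub_le_descFactorial (m - 1 + 2 * d) d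
      rw [Nat.descFactorial_eq_factorial_mul_choose] at h7
      rw [Nat.mul_comm ((m - 1 + 2 * d).choose d) d.factorial]
      have h8 : m ≤ m - 1 + 2 * d + 1 - d := by omega
      exact (Nat.pow_le_pow_left h8 d).trans h7
    exact_mod_cast h6
  exact mul_le_mul h2 h3 (by positivity) (by positivity)

end Pool.Agent.CycSH
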