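import Pool.Agent.W_1bfdb5sh_h19.FaD

/-!
# Failure side: the numerical inequality

`s = ⌊τ j⌋`.  By `lhs_up` and `rhs_low` (with `d = j - s ≥ 1`) the logarithm of the quotient is at least
`Hf m j s - log (2 m) - 2 j^2 / m - 4 s j / m - 1 - log j`.  By `Hf_sub` and `Hf_tau`
`Hf m j s ≥ τ j log (1 + ε) - log 28`, and `j^2 / m ≤ 28` (as `j^2 ≤ j^3`), `j ≥ m^(1/3)` (as
`τ^2 (1 - τ) ≤ 1`), so `τ j log (1 + ε)` beats all the logarithms for large `m`.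
-/

namespace Pool.Agent.CycSH

open Finset

private theorem FaE_large {τ c K : ℝ} (h0 : 0 < τ) (hc : 0 < c) :
    ∃ J0 : ℕ, ∀ j : ℕ, J0 ≤ j → 1 ≤ j ∧ 1 ≤ τ * j ∧ K + 4 * Real.log j < c * j := by
  have h1 : ∀ᶠ x : ℝ in Filter.atTop, ‖Real.log x‖ ≤ c / 8 * ‖id x‖ :=
    Real.isLittleO_log_id_atTop.def (by positivity)
  have h2 : ∀ᶠ x : ℝ in Filter.atTop, 1 ≤ x ∧ 1 / τ ≤ x ∧ 2 * (K + 1) / c ≤ x :=
    (Filter.eventually_ge_atTop 1).and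
      ((Filter.eventually_ge_atTop (1 / τ)).and (Filter.eventually_ge_atTop (2 * (K + 1) / c)))
  have h3 := (tendsto_natCast_atTop_atTop (R := ℝ)).eventually (h1.and h2)
  rw [Filter.eventually_atTop] at h3
  obtain ⟨J0, hJ⟩ := h3
  refine ⟨J0, fun j hj => ?_⟩
  obtain ⟨a1, a2, a3, a4⟩ := hJ j hj
  have hj0 : (0 : ℝ) ≤ j := Nat.cast_nonneg j
  rw [id, Real.norm_of_nonneg hj0] at a1
  have a5 := (le_abs_self _).trans a1
  rw [div_le_iff₀ h0] at a3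
  rw [div_le_iff₀ hc] at a4
  refine ⟨by exact_mod_cast a2, by linarith, by linarith⟩

theorem fail_num {τ : ℝ} (h0 : 0 < τ) (h1 : τ < 1) (hτ : 1 - τ = Real.exp (-3 * τ)) {ε : ℝ}
    (hε : 0 < ε) : ∃ m0 : ℕ, ∀ m : ℕ, m0 ≤ m → ∀ j : ℕ,
    (1 + ε) * m ≤ (j : ℝ) ^ 3 * (τ ^ 2 * (1 - τ)) → (j : ℝ) ^ 3 ≤ 28 * m →
    ⌊τ * j⌋₊ < j ∧ 2 * (m : ℝ) * ((m + 2 * j).choose j : ℝ) *
      (((m : ℝ) + 2 * (⌊τ * j⌋₊ : ℕ)) / m) ^ (m + 2 * j) <
    (((⌊τ * j⌋₊ : ℕ) : ℝ) + 1) ^ (2 * ⌊τ * j⌋₊ + 2) *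
      ((m - 1 + 2 * (j - ⌊τ * j⌋₊)).choose (j - ⌊τ * j⌋₊) : ℝ) := by
  have hlog : 0 < Real.log (1 + ε) := Real.log_pos (by linarith)
  obtain ⟨J0, hJ⟩ := FaE_large (τ := τ) (c := τ * Real.log (1 + ε))
    (K := Real.log 28 + 169 + Real.log 2) h0 (mul_pos h0 hlog)
  refine ⟨J0 ^ 3 + 1, fun m hm j hj1 hj2 => ?_⟩
  have hm1 : 1 ≤ m := by omega
  have hm0 : (0 : ℝ) < m := by exact_mod_cast hm1
  have hτ1 : τ ^ 2 * (1 - τ) ≤ 1 := by
    have e1 : τ ^ 2 ≤ 1 := pow_le_one₀ h0.le h1.le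
    have e2 : τ ^ 2 * (1 - τ) ≤ 1 * 1 := mul_le_mul e1 (by linarith) (by linarith) zero_le_one
    linarith
  have hjn : (0 : ℝ) ≤ j := Nat.cast_nonneg j
  have hmj : (m : ℝ) ≤ (j : ℝ) ^ 3 := by
    have e1 : (j : ℝ) ^ 3 * (τ ^ 2 * (1 - τ)) ≤ (j : ℝ) ^ 3 * 1 :=
      mul_le_mul_of_nonneg_left hτ1 (by positivity)
    have e2 : 0 ≤ ε * m := by positivity
    linarith
  have hjJ : J0 ≤ j := by
    by_contra hcon
    have e1 : j ^ 3 ≤ J0 ^ 3 := Nat.pow_le_pow_left (by omega) 3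
    have e2 : m ≤ j ^ 3 := by exact_mod_cast hmj
    omega
  obtain ⟨hj3, hj4, hj5⟩ := hJ j hjJ
  have hj0 : (0 : ℝ) < j := by exact_mod_cast hj3
  have hj1' : (1 : ℝ) ≤ j := by exact_mod_cast hj3
  have hsle : ((⌊τ * j⌋₊ : ℕ) : ℝ) ≤ τ * j := Nat.floor_le (by positivity)
  have hsge : τ * j < ((⌊τ * j⌋₊ : ℕ) : ℝ) + 1 := Nat.lt_floor_add_one _
  have hs1 : 1 ≤ ⌊τ * j⌋₊ := Nat.le_floor (by exact_mod_cast hj4)
  have hτj : τ * j < j := by nlinarith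
  generalize ⌊τ * (j : ℝ)⌋₊ = s at *
  have hsj : s < j := by
    have : (s : ℝ) < j := by linarith
    exact_mod_cast this
  refine ⟨hsj, ?_⟩
  have hs0 : (0 : ℝ) < s := by exact_mod_cast hs1
  have hd1 : 1 ≤ j - s := by omega
  have hd : ((j - s : ℕ) : ℝ) = (j : ℝ) - s := by
    rw [Nat.cast_sub hsj.le]
  have hA := lhs_up (m := m) (j := j) (s := s) hm1 hj3
  have hB := rhs_low (m := m) (d := j - s) (s := s) hm1 hd1 hs1
  refine lt_of_le_of_lt hA (lt_of_lt_of_le ?_ hB)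
  rw [Real.exp_lt_exp, hd]
  have hH1 := Hf_tau (m := m) (j := j) h0 h1 hτ hm0 hj0
  have hH2 := Hf_sub (m := m) (j := j) (u := s) (v := τ * j) hm0 hs0 hsle hτj hj2
  have hH3 : Real.log (1 + ε) ≤ Real.log ((j : ℝ) ^ 3 * (τ ^ 2 * (1 - τ)) / m) := by
    apply Real.log_le_log (by linarith)
    rw [le_div_iff₀ hm0]
    exact hj1
  have hH4 : τ * j * Real.log (1 + ε) ≤ τ * j * Real.log ((j : ℝ) ^ 3 * (τ ^ 2 * (1 - τ)) / m) :=
    mul_le_mul_of_nonneg_left hH3 (by positivity)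
  have h28 : 0 ≤ Real.log 28 := Real.log_nonneg (by norm_num)
  have hH5 : (τ * j - s) * Real.log 28 ≤ 1 * Real.log 28 :=
    mul_le_mul_of_nonneg_right (by linarith) h28
  have hl1 : Real.log ((j : ℝ) - s) ≤ Real.log j :=
    Real.log_le_log (by rw [← hd]; exact_mod_cast hd1) (by linarith)
  have hl2 : Real.log (2 * (m : ℝ)) ≤ Real.log 2 + 3 * Real.log j := by
    have e1 : Real.log (2 * (m : ℝ)) ≤ Real.log (2 * (j : ℝ) ^ 3) :=
      Real.log_le_log (by positivity) (by linarith)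
    have e2 : Real.log (2 * (j : ℝ) ^ 3) = Real.log 2 + 3 * Real.log j := by
      rw [Real.log_mul (by norm_num) (by positivity), Real.log_pow]
      push_cast
      ring
    rw [e2] at e1
    exact e1
  have hj23 : (j : ℝ) ^ 2 ≤ 28 * m := by
    have e1 : (j : ℝ) ^ 2 * 1 ≤ (j : ℝ) ^ 2 * j := mul_le_mul_of_nonneg_left hj1' (by positivity)
    have e2 : (j : ℝ) ^ 2 * j = (j : ℝ) ^ 3 := by ring
    linarith
  have hq1 : 2 * (j : ℝ) ^ 2 / m ≤ 56 := by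
    rw [div_le_iff₀ hm0]
    linarith
  have hq2 : 4 * (s : ℝ) * j / m ≤ 112 := by
    rw [div_le_iff₀ hm0]
    have e1 : (s : ℝ) * j ≤ j * j := mul_le_mul_of_nonneg_right (by linarith) hj0.le
    have e2 : (j : ℝ) * j = (j : ℝ) ^ 2 := by ring
    linarith
  have hHf : Hf m j s = 2 * s * Real.log s - s * Real.log m - (j - s) * Real.log (j - s) +
      j * Real.log j - 3 * s := rfl
  rw [hH1] at hH2
  rw [hHf] at hH2
  have e3 : ((j : ℝ) - s) * Real.log m = j * Real.log m - s * Real.log m := by ring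
  rw [e3]
  have e4 : τ * Real.log (1 + ε) * j = τ * j * Real.log (1 + ε) := by ring
  rw [e4] at hj5
  linarith

end Pool.Agent.CycSH
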