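import Pool.Agent.W_1bfdb5sh_h19.FaB
import Pool.Agent.W_1bfdb5sh_h19.FaE

/-!
# Failure side: conclusion

* `fail_mid`: `fails_of` (`W_1bfdb5_h19/Neg.lean`) with `H = HG m s`, `s = ⌊τ j⌋`, `k = m + 2 j`,
  `l = m - 2`; `HG m s` is a graph on `m + 2 s` vertices, `OddFree` by `cls_odd`; `cKL_fix`,
  `HG_lower`, `fail_num`.
* `fail_sharp`: `k = m + 2 j`, `m = l + 2`, `k - l = 2 (j + 1)`.  If `j^3 ≤ 28 m`: `fail_mid` (with a
  smaller `ε`, for large `l`).  Otherwise `j^3 ≥ 27 (m + 2 j)` and `m + 2 j ≥ 33` and `failure`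
  (`W_1bfdb5_h19/Neg.lean`) applies (if `m ≥ 54 j` then `28 m ≥ 27 (m + 2 j)`; if `m < 54 j` then
  `27 (m + 2 j) < 1512 j ≤ j^3`, as `j ≥ 39` for large `m`).
-/

namespace Pool.Agent.CycSH

open Finset Pool.Agent.CycGT Pool.Agent.CycFD
open scoped Classical

theorem fail_mid {τ : ℝ} (h0 : 0 < τ) (h1 : τ < 1) (hτ : 1 - τ = Real.exp (-3 * τ)) {ε : ℝ}
    (hε : 0 < ε) : ∃ m0 : ℕ, ∀ m : ℕ, m0 ≤ m → Odd m → ∀ j : ℕ,
    (1 + ε) * m ≤ (j : ℝ) ^ 3 * (τ ^ 2 * (1 - τ)) → (j : ℝ) ^ 3 ≤ 28 * m →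
    ∃ δ : ℝ, 0 < δ ∧ ∃ N : ℕ, ∀ n ≥ N,
      (cKL (m + 2 * j) (m - 2) + δ) * (n : ℝ) ^ (m + 2 * j) ≤ (exC n (m + 2 * j) (m - 2) : ℝ) := by
  obtain ⟨m0, hm0⟩ := fail_num h0 h1 hτ hε
  refine ⟨max m0 6, ?_⟩
  intro m hm hom j hj1 hj2
  have hmm : m0 ≤ m := (le_max_left _ _).trans hm
  have hm6 : 6 ≤ m := (le_max_right _ _).trans hm
  obtain ⟨hs, hlt⟩ := hm0 m hmm j hj1 hj2
  set s := ⌊τ * j⌋₊ with hsdef
  have hjm : j < m := by
    by_contra hcon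
    push Not at hcon
    have h2 : (m : ℝ) ≤ j := by exact_mod_cast hcon
    have h3 : (6 : ℝ) ≤ m := by exact_mod_cast hm6
    have h4 : (m : ℝ) ^ 3 ≤ (j : ℝ) ^ 3 := pow_le_pow_left₀ (by linarith) h2 3
    have h5 : (36 : ℝ) ≤ (m : ℝ) ^ 2 := by nlinarith
    have h6 : (36 : ℝ) * m ≤ (m : ℝ) ^ 2 * m := mul_le_mul_of_nonneg_right h5 (by linarith)
    have h7 : (m : ℝ) ^ 2 * m = (m : ℝ) ^ 3 := by ring
    linarith
  haveI : NeZero m := ⟨by omega⟩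
  haveI : NeZero (m + 2 * s) := ⟨by omega⟩
  haveI : NeZero (m + 2 * j) := ⟨by omega⟩
  have hl : Odd (m - 2) := by
    obtain ⟨b, rfl⟩ := hom
    exact ⟨b - 1, by omega⟩
  refine fails_of (by omega) (HG m s) (cls_odd hom _) hl (by omega) (by omega) ?_
  have hlow := HG_lower (m := m) (j := j) (s := s) (by omega) hs.le
  have hlow2 : ((s : ℝ) + 1) ^ (2 * s + 2) * ((m - 1 + 2 * (j - s)).choose (j - s) : ℝ) ≤
      (#(clos (HG m s) (m + 2 * j)) : ℝ) := by exact_mod_cast hlow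
  refine lt_of_lt_of_le (lt_of_eq_of_lt ?_ hlt) hlow2
  rw [cKL_fix m j (by omega) hjm]
  have hmR : (0 : ℝ) < m := by exact_mod_cast (by omega : 0 < m)
  have hkR : (0 : ℝ) < (m : ℝ) + 2 * j := by positivity
  rw [div_pow]
  push_cast
  field_simp

theorem fail_sharp {τ : ℝ} (h0 : 0 < τ) (h1 : τ < 1) (hτ : 1 - τ = Real.exp (-3 * τ)) {ε : ℝ}
    (hε : 0 < ε) : ∃ l0 : ℕ, ∀ l : ℕ, l0 ≤ l → Odd l → ∀ k : ℕ, Odd k → l < k →
    (8 / (τ ^ 2 * (1 - τ)) + ε) * l ≤ ((k : ℝ) - l) ^ 3 →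
    ∃ δ : ℝ, 0 < δ ∧ ∃ N : ℕ, ∀ n ≥ N, (cKL k l + δ) * (n : ℝ) ^ k ≤ (exC n k l : ℝ) := by
  have h1' : 0 < 1 - τ := by linarith
  obtain ⟨c, hc⟩ : ∃ c, c = τ ^ 2 * (1 - τ) := ⟨_, rfl⟩
  have hc0 : 0 < c := by rw [hc]; positivity
  have hc1 : c ≤ 1 := by
    rw [hc]
    have h2 : τ ^ 2 ≤ 1 := by nlinarith
    nlinarith
  obtain ⟨a, ha⟩ : ∃ a, a = c * ε / 8 := ⟨_, rfl⟩
  have ha0 : 0 < a := by rw [ha]; positivity
  obtain ⟨m0, hm0⟩ := fail_mid h0 h1 hτ (ε := a / 4) (by positivity)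
  obtain ⟨K, hK⟩ := exists_nat_gt (6 * (1 + a) / a)
  obtain ⟨L, hL⟩ := exists_nat_gt (8 / a + 2)
  refine ⟨max (max m0 2106) (max (K ^ 3) L), ?_⟩
  intro l hl hol k hok hlk h
  have hl1 : m0 ≤ l := ((le_max_left _ _).trans (le_max_left _ _)).trans hl
  have hl2 : 2106 ≤ l := ((le_max_right _ _).trans (le_max_left _ _)).trans hl
  have hl3 : K ^ 3 ≤ l := ((le_max_left _ _).trans (le_max_right _ _)).trans hl
  have hl4 : L ≤ l := ((le_max_right _ _).trans (le_max_right _ _)).trans hl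
  have hl3' : (K : ℝ) ^ 3 ≤ l := by exact_mod_cast hl3
  have hl4' : (L : ℝ) ≤ l := by exact_mod_cast hl4
  have hl0 : (0 : ℝ) ≤ l := Nat.cast_nonneg _
  have hm : Odd (l + 2) := by
    obtain ⟨b, rfl⟩ := hol
    exact ⟨b + 1, by omega⟩
  obtain ⟨j, rfl⟩ : ∃ j, k = (l + 2) + 2 * j := by
    obtain ⟨b, rfl⟩ := hok
    obtain ⟨b', rfl⟩ := hol
    exact ⟨b - b' - 1, by omega⟩
  obtain ⟨x, hx⟩ : ∃ x : ℝ, x = (j : ℝ) + 1 := ⟨_, rfl⟩
  have hj0 : (0 : ℝ) ≤ j := Nat.cast_nonneg _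
  have hx1 : 1 ≤ x := by rw [hx]; linarith
  have hx2 : (((l + 2 + 2 * j : ℕ) : ℝ) - l) ^ 3 = 8 * x ^ 3 := by
    rw [hx]
    push_cast
    ring
  rw [hx2, ← hc] at h
  have h3 : (1 + a) * l ≤ c * x ^ 3 := by
    have h4 := mul_le_mul_of_nonneg_left h hc0.le
    have h5 : c * ((8 / c + ε) * l) = 8 * ((1 + a) * l) := by
      rw [ha]
      field_simp
    rw [h5] at h4
    nlinarith
  have hxK : (K : ℝ) ≤ x := by
    by_contra hcon
    push Not at hcon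
    have h6 : x ^ 3 < (K : ℝ) ^ 3 := pow_lt_pow_left₀ hcon (by linarith) (by norm_num)
    have h7 : (l : ℝ) ≤ (1 + a) * l := by nlinarith
    have h8 : c * x ^ 3 ≤ x ^ 3 := by
      have : 0 ≤ x ^ 3 := by positivity
      nlinarith
    linarith
  have hax : 6 * (1 + a) ≤ a * x := by
    have h6 : 6 * (1 + a) / a ≤ x := hK.le.trans hxK
    rw [div_le_iff₀ ha0] at h6
    linarith
  have h9 : (1 + a / 2) * x ^ 3 ≤ (1 + a) * (j : ℝ) ^ 3 := by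
    have h10 : x ^ 3 - 3 * x ^ 2 ≤ (j : ℝ) ^ 3 := by
      have : (j : ℝ) = x - 1 := by rw [hx]; ring
      rw [this]
      nlinarith
    have h11 : 6 * (1 + a) * x ^ 2 ≤ a * x * x ^ 2 := mul_le_mul_of_nonneg_right hax (by positivity)
    have h12 : (1 + a) * (x ^ 3 - 3 * x ^ 2) ≤ (1 + a) * (j : ℝ) ^ 3 :=
      mul_le_mul_of_nonneg_left h10 (by linarith)
    nlinarith
  have h10 : (1 + a / 2) * l ≤ c * (j : ℝ) ^ 3 := by
    have h11 := mul_le_mul_of_nonneg_left h3 (by linarith : (0 : ℝ) ≤ 1 + a / 2)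
    have h12 := mul_le_mul_of_nonneg_left h9 hc0.le
    have h13 : (1 + a) * ((1 + a / 2) * l) ≤ (1 + a) * (c * (j : ℝ) ^ 3) := by nlinarith
    exact le_of_mul_le_mul_left h13 (by linarith)
  have h11 : (1 + a / 4) * ((l + 2 : ℕ) : ℝ) ≤ (j : ℝ) ^ 3 * c := by
    have h12 : 8 / a + 2 ≤ l := hL.le.trans hl4'
    have h13 : 8 + 2 * a ≤ l * a := by
      have h14 := mul_le_mul_of_nonneg_right h12 ha0.le
      have h15 : (8 / a + 2) * a = 8 + 2 * a := by field_simp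
      rw [h15] at h14
      exact h14
    push_cast
    nlinarith
  rcases le_or_gt ((j : ℝ) ^ 3) (28 * ((l + 2 : ℕ) : ℝ)) with hcase | hcase
  · have h12 := hm0 (l + 2) (by omega) hm j (by rw [← hc]; exact h11) hcase
    have e : l + 2 - 2 = l := by omega
    rw [e] at h12
    exact h12
  · have h12 : 28 * (l + 2) < j ^ 3 := by exact_mod_cast hcase
    refine failure _ _ hok hol (by omega) hlk (Or.inl ⟨by omega, ?_⟩)
    have e : l + 2 + 2 * j - l - 2 = 2 * j := by omega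
    rw [e]
    have e2 : (2 * j) ^ 3 = 8 * j ^ 3 := by ring
    rw [e2]
    rcases Nat.lt_or_ge (l + 2) (54 * j) with hj | hj
    · have hj39 : 39 ≤ j := by omega
      have e3 : j ^ 3 = j * j * j := by ring
      have h13 : 39 * 39 ≤ j * j := Nat.mul_le_mul hj39 hj39
      have h14 : 39 * 39 * j ≤ j * j * j := Nat.mul_le_mul_right j h13
      rw [e3]
      omega
    · omega

end Pool.Agent.CycSH
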