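import Pool.Agent.W_1bfdb5sh_h41.ShA

/-!
# The root of `1 - τ = exp (-3 τ)` is unique
-/

namespace Pool.Agent.CycSH

open Pool.Agent.CycSh

private lemma uq_aux {a b : ℝ} (ha : 0 < a) (hab : a < b) (h1 : 1 - a = Real.exp (-3 * a))
    (h2 : 1 - b = Real.exp (-3 * b)) : False := by
  have hb : 0 < b := ha.trans hab
  have hs := strictConvexOn_exp.2 (Set.mem_univ (-3 * b)) (Set.mem_univ (0 : ℝ))
    (by linarith : -3 * b ≠ 0) (div_pos ha hb) (by rw [sub_pos, div_lt_one hb]; exact hab)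
    (by ring : a / b + (1 - a / b) = 1)
  simp only [smul_eq_mul, mul_zero, add_zero, Real.exp_zero, mul_one] at hs
  have e1 : a / b * (-3 * b) = -3 * a := by
    field_simp
  rw [e1, ← h1, ← h2] at hs
  have e2 : a / b * (1 - b) + (1 - a / b) = 1 - a := by
    field_simp
    ring
  linarith

/-- Uniqueness of the positive root. -/
theorem tau_unique {a b : ℝ} (ha : 0 < a) (hb : 0 < b) (h1 : 1 - a = Real.exp (-3 * a))
    (h2 : 1 - b = Real.exp (-3 * b)) : a = b := by
  rcases lt_trichotomy a b with h | h | h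
  · exact (uq_aux ha h h1 h2).elim
  · exact h
  · exact (uq_aux hb h h2 h1).elim

/-- Existence and uniqueness of the root in `(0, 1)`. -/
theorem tau_eu : ∃! τ : ℝ, 0 < τ ∧ τ < 1 ∧ 1 - τ = Real.exp (-3 * τ) := by
  obtain ⟨τ, h1, h2, h3⟩ := tau_ex
  refine ⟨τ, ⟨by linarith, by linarith, h3⟩, fun σ hσ => ?_⟩
  exact tau_unique hσ.1 (by linarith) hσ.2.2 h3

end Pool.Agent.CycSH
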